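import Pool.Agent.helper76.FF2.Spec

/-! Project FF2, row ROT: the second symmetric function of the sums `zr`. -/

set_option autoImplicit false

namespace Pool.Agent.FF2

open Polynomial

lemma ROT_two (K : Type*) [Field K] [CharP K 2] : (2 : K) = 0 := by
  have h := CharP.cast_eq_zero K 2
  exact_mod_cast h

lemma ROT_ne {K : Type*} [Field K] [CharP K 2] {x y : K} (h : x ≠ y) : x + y ≠ 0 := by
  intro h0
  apply h
  have h1 := ROT_two K
  linear_combination h0 - y * h1

lemma ROT_self {K : Type*} [Field K] [CharP K 2] (x y : K) (hxy : x = y) : x / (x + y) = 0 := by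
  rw [hxy, CharTwo.add_self_eq_zero, div_zero]

lemma ROT_pair {K : Type*} [Field K] [CharP K 2] (x y : K) (h : x ≠ y) : x / (x + y) + y / (y + x) = 1 := by
  have h1 := ROT_ne h
  rw [add_comm y x, ← add_div, div_self h1]

lemma ROT_ident {K : Type*} [Field K] [CharP K 2] (x a s : K) (hxa : x ≠ a) (hxs : x ≠ s) (has : a ≠ s) :
    a / (a + s) * (x / (x + s)) + x / (x + a) * (x / (x + s)) + a / (a + x) * (a / (a + s)) =
      x / (x + s) + a / (a + s) := by
  have h2 := ROT_two K
  have h1 := ROT_ne hxa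
  have h3 := ROT_ne hxs
  have h4 := ROT_ne has
  rw [add_comm a x]
  have e : a / (a + s) * (x / (x + s)) + x / (x + a) * (x / (x + s)) + a / (x + a) * (a / (a + s)) =
      (a * x * (x + a) + x ^ 2 * (a + s) + a ^ 2 * (x + s)) / ((x + a) * (x + s) * (a + s)) := by
    field_simp
  have e' : x / (x + s) + a / (a + s) =
      (x * (x + a) * (a + s) + a * (x + a) * (x + s)) / ((x + a) * (x + s) * (a + s)) := by
    field_simp
  rw [e, e']
  apply congrArg (fun t => t / ((x + a) * (x + s) * (a + s)))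
  linear_combination (-(a * x * s)) * h2

lemma ROT_zr_cons {K : Type*} [Field K] [CharP K 2] (R : Finset K) (s : K) (h : s ∉ R) (x : K) :
    zr (Finset.cons s R h) x = zr R x + x / (x + s) := by
  unfold zr
  rw [Finset.sum_cons, add_comm]

lemma ROT_zr_self {K : Type*} [Field K] [CharP K 2] (R : Finset K) (s : K) (h : s ∉ R) :
    zr (Finset.cons s R h) s = ∑ x ∈ R, s / (s + x) := by
  unfold zr
  rw [Finset.sum_cons, ROT_self s s rfl, zero_add]

lemma ROT_comp {K : Type*} [Field K] [CharP K 2] (R : Finset K) (s : K) (h : s ∉ R) :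
    ∑ x ∈ R, s / (s + x) = (R.card : K) + ∑ x ∈ R, x / (x + s) := by
  have h2 := ROT_two K
  have h1 : ∀ x ∈ R, s / (s + x) = 1 + x / (x + s) := by
    intro x hx
    have hne : x ≠ s := fun he => h (he ▸ hx)
    have h3 := ROT_pair x s hne
    linear_combination h3 - (x / (x + s)) * h2
  rw [Finset.sum_congr rfl h1, Finset.sum_add_distrib, Finset.sum_const, nsmul_eq_mul, mul_one]

/-- The sum of the `zr R x`. -/
lemma ROT_sum {K : Type*} [Field K] [CharP K 2] (R : Finset K) :
    ∑ x ∈ R, zr R x = ((R.card.choose 2 : ℕ) : K) := by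
  have h2 := ROT_two K
  induction R using Finset.cons_induction with
  | empty => simp
  | cons s R h ih =>
    rw [Finset.sum_cons, ROT_zr_self, Finset.card_cons]
    have h1 : ∑ x ∈ R, zr (Finset.cons s R h) x = ∑ x ∈ R, zr R x + ∑ x ∈ R, x / (x + s) := by
      rw [← Finset.sum_add_distrib]
      exact Finset.sum_congr rfl fun x _ => ROT_zr_cons R s h x
    rw [h1, ih, ROT_comp R s h, Nat.choose_succ_succ' R.card 1, Nat.choose_one_right]
    push_cast
    linear_combination (∑ x ∈ R, x / (x + s)) * h2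

/-- The claim. -/
lemma ROT_claim {K : Type*} [Field K] [CharP K 2] (h1 : E2A_stmt K) (s : K) (R : Finset K) (hs : s ∉ R) :
    e2 R (fun x => x / (x + s)) + ∑ x ∈ R, zr R x * (x / (x + s)) =
      ((R.card : K) + 1) * ((R.card : K) + ∑ x ∈ R, x / (x + s)) := by
  have h2 := ROT_two K
  induction R using Finset.cons_induction with
  | empty =>
    rw [h1.1]
    simp
  | cons a R h ih =>
    rw [Finset.mem_cons, not_or] at hs
    have has : a ≠ s := fun he => hs.1 he.symm
    have ih' := ih hs.2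
    rw [h1.2.1, Finset.sum_cons, Finset.sum_cons, Finset.card_cons, ROT_zr_self]
    have h3 : ∑ x ∈ R, zr (Finset.cons a R h) x * (x / (x + s)) =
        ∑ x ∈ R, zr R x * (x / (x + s)) + ∑ x ∈ R, x / (x + a) * (x / (x + s)) := by
      rw [← Finset.sum_add_distrib]
      refine Finset.sum_congr rfl fun x _ => ?_
      rw [ROT_zr_cons]
      ring
    rw [h3]
    have h4 : a / (a + s) * ∑ x ∈ R, x / (x + s) + ∑ x ∈ R, x / (x + a) * (x / (x + s)) +
        (∑ x ∈ R, a / (a + x)) * (a / (a + s)) = ∑ x ∈ R, x / (x + s) + (R.card : K) * (a / (a + s)) := by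
      rw [Finset.mul_sum, Finset.sum_mul, ← Finset.sum_add_distrib, ← Finset.sum_add_distrib]
      have h5 : (R.card : K) * (a / (a + s)) = ∑ x ∈ R, a / (a + s) := by
        rw [Finset.sum_const, nsmul_eq_mul]
      rw [h5, ← Finset.sum_add_distrib]
      refine Finset.sum_congr rfl fun x hx => ?_
      have hxa : x ≠ a := fun he => h (he ▸ hx)
      have hxs : x ≠ s := fun he => hs.2 (he ▸ hx)
      exact ROT_ident x a s hxa hxs has
    push_cast
    linear_combination ih' + h4 - ((R.card : K) + 1 + a / (a + s)) * h2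

lemma ROT_choose (n : ℕ) : ∃ k : ℤ, ((n.choose 3 : ℕ) : ℤ) = (n : ℤ) * ((n.choose 2 : ℕ) : ℤ) + 2 * k := by
  have h1 : n.choose 3 * 3 = n.choose 2 * (n - 2) := Nat.choose_succ_right_eq n 2
  rcases Nat.lt_or_ge n 2 with h | h
  · have h3 : n.choose 3 = 0 := Nat.choose_eq_zero_of_lt (by omega)
    have h4 : n.choose 2 = 0 := Nat.choose_eq_zero_of_lt h
    exact ⟨0, by rw [h3, h4]; simp⟩
  · obtain ⟨m, rfl⟩ : ∃ m, n = m + 2 := ⟨n - 2, by omega⟩
    rw [Nat.add_sub_cancel] at h1
    obtain ⟨a, ha⟩ : ∃ a : ℤ, a = (((m + 2).choose 3 : ℕ) : ℤ) := ⟨_, rfl⟩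
    obtain ⟨b, hb⟩ : ∃ b : ℤ, b = (((m + 2).choose 2 : ℕ) : ℤ) := ⟨_, rfl⟩
    have h3 : a * 3 = b * m := by
      rw [ha, hb]
      exact_mod_cast h1
    rw [← ha, ← hb]
    refine ⟨-a - b, ?_⟩
    push_cast
    linarith

theorem ROT (K : Type*) [Field K] [CharP K 2] (h1 : E2A_stmt K) : ROT_stmt K := by
  have h2 := ROT_two K
  intro R
  induction R using Finset.cons_induction with
  | empty =>
    rw [h1.1, h1.2.2.1]
    simp
  | cons s R h ih =>
    have hcl := ROT_claim h1 s R h
    have hZ := ROT_sum R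
    obtain ⟨-, e3, -, e5, e6, e7, -, -, -⟩ := h1
    have hY := ROT_comp R s h
    have h3 : ∑ x ∈ R, zr (Finset.cons s R h) x = ∑ x ∈ R, zr R x + ∑ x ∈ R, x / (x + s) := by
      rw [← Finset.sum_add_distrib]
      exact Finset.sum_congr rfl fun x _ => ROT_zr_cons R s h x
    have h4 : e2 R (zr (Finset.cons s R h)) = e2 R (fun x => zr R x + x / (x + s)) :=
      e6 _ _ _ fun x _ => ROT_zr_cons R s h x
    have h5 : ∑ x ∈ R, s * x / (s + x) ^ 2 = ∑ x ∈ R, x / (x + s) + (∑ x ∈ R, x / (x + s)) ^ 2 := by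
      rw [CharTwo.sum_sq, ← Finset.sum_add_distrib]
      refine Finset.sum_congr rfl fun x hx => ?_
      have hne : x ≠ s := fun he => h (he ▸ hx)
      have h6 := ROT_ne hne
      rw [add_comm s x]
      have e : x / (x + s) + (x / (x + s)) ^ 2 = (x * (x + s) + x ^ 2) / (x + s) ^ 2 := by
        field_simp
      rw [e]
      apply congrArg (fun t => t / (x + s) ^ 2)
      linear_combination (-(x ^ 2)) * h2
    obtain ⟨k, hk⟩ := ROT_choose R.card
    have hk' : ((R.card.choose 3 : ℕ) : K) = (R.card : K) * ((R.card.choose 2 : ℕ) : K) + 2 * (k : K) := by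
      have h6 := congrArg (Int.cast : ℤ → K) hk
      push_cast at h6
      exact h6
    obtain ⟨k', hk2⟩ := Nat.even_mul_succ_self R.card
    have hk2' : (R.card : K) * ((R.card : K) + 1) = (k' : K) + (k' : K) := by
      have h6 := congrArg (Nat.cast : ℕ → K) hk2
      push_cast at h6
      exact h6
    rw [e3, h4, e7, ROT_zr_self, hY, h3, e5, h5, hZ, Finset.card_cons, Nat.choose_succ_succ' R.card 3]
    push_cast
    obtain ⟨Y, hYd⟩ : ∃ Y : K, Y = ∑ x ∈ R, x / (x + s) := ⟨_, rfl⟩
    rw [← hYd] at hcl ⊢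
    linear_combination ih + hcl - hk' + hk2' + ((R.card : K) * Y + ((R.card.choose 2 : ℕ) : K) * Y + (k' : K) - (k : K)) * h2

end Pool.Agent.FF2
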